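import Mathlib

set_option autoImplicit false

/-!
Families of pairwise commuting normal subgroups.
-/

namespace Pool.Agent.V1128.Br

/-- `Γ` has a family, indexed by `ι`, of nontrivial pairwise commuting normal subgroups. -/
def Fam (Γ : Type) [Group Γ] (ι : Type) : Prop :=
  ∃ N : ι → Subgroup Γ, (∀ i, (N i).Normal) ∧ (∀ i, N i ≠ ⊥) ∧
    ∀ i j, i ≠ j → ∀ a ∈ N i, ∀ b ∈ N j, a * b = b * a

theorem Fam.comp {Γ : Type} [Group Γ] {ι ι' : Type} (h : Fam Γ ι) (f : ι' → ι)
    (hf : Function.Injective f) : Fam Γ ι' := by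
  obtain ⟨N, h1, h2, h3⟩ := h
  exact ⟨fun i => N (f i), fun i => h1 _, fun i => h2 _, fun i j hij => h3 _ _ (hf.ne hij)⟩

theorem Fam.iso {Γ Γ' : Type} [Group Γ] [Group Γ'] {ι : Type} (h : Fam Γ ι) (e : Γ' ≃* Γ) :
    Fam Γ' ι := by
  obtain ⟨N, h1, h2, h3⟩ := h
  refine ⟨fun i => (N i).comap e.toMonoidHom, fun i => (h1 i).comap _, fun i hi => h2 i ?_,
    fun i j hij a ha b hb => ?_⟩
  · rw [Subgroup.eq_bot_iff_forall] at hi ⊢
    intro x hx
    have := hi (e.symm x) (by
      change e (e.symm x) ∈ N i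
      rwa [e.apply_symm_apply])
    have h4 := congrArg e this
    rwa [e.apply_symm_apply, map_one] at h4
  · apply e.injective
    rw [map_mul, map_mul]
    exact h3 i j hij (e a) ha (e b) hb

/-- Commuting families in the powers of a group. -/
theorem Fam.pow {K : Type} [Group K] {ι : Type} (h : Fam K ι) (n : ℕ) : Fam (Fin n → K) (Fin n × ι) := by
  classical
  obtain ⟨N, h1, h2, h3⟩ := h
  refine ⟨fun p => (N p.2).map (MonoidHom.mulSingle (fun _ => K) p.1), fun p => ⟨?_⟩, fun p hp => ?_, ?_⟩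
  · rintro _ ⟨a, ha, rfl⟩ g
    refine ⟨g p.1 * a * (g p.1)⁻¹, (h1 p.2).conj_mem a ha _, ?_⟩
    funext i
    by_cases hi : i = p.1
    · subst hi
      simp
    · simp [hi]
  · apply h2 p.2
    have hinj : Function.Injective (MonoidHom.mulSingle (fun _ : Fin n => K) p.1) :=
      Pi.mulSingle_injective (M := fun _ : Fin n => K) p.1
    exact (Subgroup.map_eq_bot_iff_of_injective (N p.2) hinj).mp hp
  · rintro ⟨i, a⟩ ⟨j, b⟩ hne _ ⟨x, hx, rfl⟩ _ ⟨y, hy, rfl⟩
    by_cases hij : i = j
    · subst hij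
      have hab : a ≠ b := fun h => hne (by rw [h])
      rw [← map_mul, ← map_mul, h3 a b hab x hx y hy]
    · exact Pi.mulSingle_commute (f := fun _ : Fin n => K) hij x y

/-- Splitting a commuting family of a power of `K` with trivial centre. -/
theorem Fam.split {K : Type} [Group K] {ι : Type} {n : ℕ} (h : Fam (Fin n → K) ι)
    (hZ : ∀ f : Fin n → K, (∀ g, f * g = g * f) → f = 1) :
    ∃ c : ι → Fin n, ∀ j, Fam K {i // c i = j} := by
  classical
  obtain ⟨N, h1, h2, h3⟩ := h
  have key : ∀ i, ∃ j : Fin n, ∃ k : K, k ≠ 1 ∧ Pi.mulSingle j k ∈ N i := by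
    intro i
    obtain ⟨f, hf, hf1⟩ : ∃ f, f ∈ N i ∧ f ≠ 1 := by
      by_contra hc
      push Not at hc
      exact h2 i ((Subgroup.eq_bot_iff_forall _).mpr hc)
    have hnc : ∃ j, ∃ k, f j * k ≠ k * f j := by
      by_contra hc
      push Not at hc
      exact hf1 (hZ f fun g => funext fun j => hc j (g j))
    obtain ⟨j, k, hk⟩ := hnc
    refine ⟨j, f j * (k * (f j)⁻¹ * k⁻¹), ?_, ?_⟩
    · intro h
      apply hk
      have h5 : f j * k = f j * (k * (f j)⁻¹ * k⁻¹) * (k * f j) := by group
      rw [h5, h, one_mul]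
    · have h4 := (N i).mul_mem hf ((h1 i).conj_mem _ ((N i).inv_mem hf) (Pi.mulSingle j k))
      have h5 : f * (Pi.mulSingle j k * f⁻¹ * (Pi.mulSingle j k)⁻¹) =
          Pi.mulSingle j (f j * (k * (f j)⁻¹ * k⁻¹)) := by
        funext l
        by_cases hl : l = j
        · subst hl
          simp
        · simp [hl]
      rwa [h5] at h4
  choose c k hk1 hk2 using key
  refine ⟨c, fun j => ⟨fun i => (N i.1).comap (MonoidHom.mulSingle (fun _ => K) j),
    fun i => (h1 i.1).comap _, fun i hi => ?_, fun i i' hne a ha b hb => ?_⟩⟩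
  · obtain ⟨i, rfl⟩ := i
    apply hk1 i
    rw [Subgroup.eq_bot_iff_forall] at hi
    exact hi (k i) (hk2 i)
  · have := h3 i.1 i'.1 (fun h => hne (Subtype.ext h)) _ ha _ hb
    rw [← map_mul, ← map_mul] at this
    exact Pi.mulSingle_injective j this

/-- The contradiction: if `P ≃ K ^ n`, `P` has a commuting family indexed by `ι`, all commuting
families of `P` have at most `|ι|` members, and the centre of `P` is trivial, then `n` divides the
number of elements of `ι`. -/
theorem dvd_card {P K ι : Type} [Group P] [Group K] [Finite ι] {n : ℕ} (hn : 0 < n) (e : P ≃* (Fin n → K))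
    (hP : Fam P ι) (hbd : ∀ ι' : Type, [Finite ι'] → Fam P ι' → Nat.card ι' ≤ Nat.card ι)
    (hZ : ∀ f : P, (∀ g, f * g = g * f) → f = 1) : n ∣ Nat.card ι := by
  classical
  -- the maximal size for `K`
  have hpow : ∀ r : ℕ, Fam K (Fin r) → n * r ≤ Nat.card ι := by
    intro r hr
    have h1 := hbd _ ((hr.pow n).iso e)
    simpa [Nat.card_prod] using h1
  have hbdd : ∀ r : ℕ, Fam K (Fin r) → r ≤ Nat.card ι := fun r hr =>
    (Nat.le_mul_of_pos_left r hn).trans (hpow r hr)
  have h0 : Fam K (Fin 0) := ⟨fun i => i.elim0, fun i => i.elim0, fun i => i.elim0, fun i => i.elim0⟩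
  set r := Nat.findGreatest (fun r => Fam K (Fin r)) (Nat.card ι) with hr
  have hr1 : Fam K (Fin r) := Nat.findGreatest_spec (P := fun r => Fam K (Fin r)) (Nat.zero_le _) h0
  have hr2 : ∀ s, Fam K (Fin s) → s ≤ r := fun s hs => Nat.le_findGreatest (hbdd s hs) hs
  have hZ' : ∀ f : Fin n → K, (∀ g, f * g = g * f) → f = 1 := by
    intro f hf
    have h1 := hZ (e.symm f) (fun g => by
      apply e.injective
      rw [map_mul, map_mul, e.apply_symm_apply, hf])
    have h2 := congrArg e h1
    rwa [e.apply_symm_apply, map_one] at h2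
  obtain ⟨c, hc⟩ := (hP.iso e.symm).split hZ'
  have hle : Nat.card ι ≤ n * r := by
    have : Fintype ι := Fintype.ofFinite ι
    have h1 : Nat.card ι = ∑ j : Fin n, Nat.card {i // c i = j} := by
      rw [Nat.card_eq_fintype_card, ← Finset.card_univ,
        Finset.card_eq_sum_card_fiberwise (f := c) (t := Finset.univ) (fun _ _ => Finset.mem_univ _)]
      apply Finset.sum_congr rfl
      intro j _
      rw [Nat.card_eq_fintype_card, Fintype.card_subtype]
    rw [h1]
    calc _ ≤ ∑ j : Fin n, r := by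
          apply Finset.sum_le_sum
          intro j _
          apply hr2
          exact (hc j).comp (Finite.equivFin _).symm (Finite.equivFin _).symm.injective
      _ = n * r := by simp
  exact ⟨r, le_antisymm hle (hpow r hr1)⟩

end Pool.Agent.V1128.Br
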