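import Mathlib

set_option autoImplicit false

/-!
Automorphism groups of regular rooted trees.
-/

namespace Pool.Agent.V1128.Br

/-- The topology of pointwise convergence on the permutations of a set (with the discrete
topology). -/
instance permTop (V : Type) : TopologicalSpace (Equiv.Perm V) :=
  TopologicalSpace.induced (fun (g : Equiv.Perm V) (v : V) => g v)
    (@Pi.topologicalSpace V (fun _ => V) fun _ => ⊥)

section Top

variable {V : Type}

theorem cont_apply (v : V) : @Continuous _ _ _ ⊥ fun g : Equiv.Perm V => g v := by
  let _ : TopologicalSpace V := ⊥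
  exact (continuous_apply v).comp continuous_induced_dom

theorem cont_iff {Y : Type} [TopologicalSpace Y] {f : Y → Equiv.Perm V} :
    Continuous f ↔ ∀ v w : V, IsOpen {y | f y v = w} := by
  let _ : TopologicalSpace V := ⊥
  have _ : DiscreteTopology V := ⟨rfl⟩
  constructor
  · intro h v w
    exact (isOpen_discrete {w}).preimage ((cont_apply v).comp h)
  · intro h
    refine continuous_induced_rng.mpr (continuous_pi fun v => ?_)
    exact continuous_discrete_rng.mpr fun w => h v w

theorem open_eq (v w : V) : IsOpen {g : Equiv.Perm V | g v = w} := by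
  let _ : TopologicalSpace V := ⊥
  have _ : DiscreteTopology V := ⟨rfl⟩
  exact (isOpen_discrete {w}).preimage (cont_apply v)

instance permTopGroup : IsTopologicalGroup (Equiv.Perm V) where
  continuous_mul := by
    rw [cont_iff]
    intro v w
    have : {p : Equiv.Perm V × Equiv.Perm V | (p.1 * p.2) v = w} =
        ⋃ x : V, {p | p.2 v = x} ∩ {p | p.1 x = w} := by
      ext p
      simp
    rw [this]
    exact isOpen_iUnion fun x => ((open_eq v x).preimage continuous_snd).inter
      ((open_eq x w).preimage continuous_fst)
  continuous_inv := by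
    rw [cont_iff]
    intro v w
    have : {g : Equiv.Perm V | g⁻¹ v = w} = {g | g w = v} := by
      ext g
      simp only [Set.mem_ofPred_eq, Equiv.Perm.inv_eq_iff_eq]
      exact eq_comm
    rw [this]
    exact open_eq w v

end Top

variable (X : Type)

/-- The automorphism group of the rooted tree of the finite words over `X` (the children of the
vertex `v` are the words `v ++ [x]`): the permutations that fix the root and map the children of
each vertex `v` to children of the image of `v`. -/
def AutT : Subgroup (Equiv.Perm (List X)) where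
  carrier := {g | g [] = [] ∧ ∀ (v w : List X), (∃ x, w = v ++ [x]) ↔ ∃ x, g w = g v ++ [x]}
  one_mem' := ⟨rfl, fun _ _ => Iff.rfl⟩
  mul_mem' := by
    rintro a b ⟨ha, ha'⟩ ⟨hb, hb'⟩
    refine ⟨by rw [Equiv.Perm.mul_apply, hb, ha], fun v w => ?_⟩
    rw [hb' v w, ha' (b v) (b w)]
    rfl
  inv_mem' := by
    rintro a ⟨ha, ha'⟩
    refine ⟨by rw [Equiv.Perm.inv_eq_iff_eq, ha], fun v w => ?_⟩
    rw [ha' (a⁻¹ v) (a⁻¹ w)]
    have e : ∀ x, a (a⁻¹ x) = x := fun x => a.apply_symm_apply x
    rw [e, e]

variable {X}

/-- The rigid stabiliser of the vertex `v` in `U`: the elements that fix every vertex outside the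
subtree of the words with beginning `v`. -/
def rist (U : Subgroup (Equiv.Perm (List X))) (v : List X) : Subgroup (Equiv.Perm (List X)) where
  carrier := {g | g ∈ U ∧ ∀ w, ¬ v <+: w → g w = w}
  one_mem' := ⟨U.one_mem, fun _ _ => rfl⟩
  mul_mem' := by
    rintro a b ⟨ha, ha'⟩ ⟨hb, hb'⟩
    exact ⟨U.mul_mem ha hb, fun w hw => by rw [Equiv.Perm.mul_apply, hb' w hw, ha' w hw]⟩
  inv_mem' := by
    rintro a ⟨ha, ha'⟩
    exact ⟨U.inv_mem ha, fun w hw => by rw [Equiv.Perm.inv_eq_iff_eq, ha' w hw]⟩

/-- The rigid stabiliser of level `m`: the subgroup generated by the rigid stabilisers of the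
vertices of level `m`. -/
def ristL (U : Subgroup (Equiv.Perm (List X))) (m : ℕ) : Subgroup (Equiv.Perm (List X)) :=
  ⨆ (v : List X) (_ : v.length = m), rist U v

/-- `U` is a profinite branch group on the tree of the words over `X`: a closed subgroup of the
automorphism group, transitive on every level, with rigid level stabilisers of finite index. -/
def IsBranch (U : Subgroup (Equiv.Perm (List X))) : Prop :=
  U ≤ AutT X ∧ IsClosed (U.subgroupOf (AutT X) : Set (AutT X)) ∧
    (∀ v w : List X, v.length = w.length → ∃ g ∈ U, g v = w) ∧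
    ∀ m : ℕ, (ristL U m).relIndex U ≠ 0

/-- Commensurability of topological groups. -/
def Comm (A B : Type) [Group A] [TopologicalSpace A] [Group B] [TopologicalSpace B] : Prop :=
  ∃ (A' : Subgroup A) (B' : Subgroup B), IsOpen (A' : Set A) ∧ IsOpen (B' : Set B) ∧
    Nonempty (A' ≃ₜ* B')

end Pool.Agent.V1128.Br
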