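import Mathlib
import Pool.Agent.V1128.Br.Defs

set_option autoImplicit false

/-!
The automorphism group of the binary tree.
-/

namespace Pool.Agent.V1128.Br

open scoped commutatorElement

section Gen

variable {X : Type} {g : Equiv.Perm (List X)}

theorem len (hg : g ∈ AutT X) (w : List X) : (g w).length = w.length := by
  induction w using List.reverseRecOn with
  | nil => rw [hg.1]
  | append_singleton w x ih =>
    obtain ⟨y, hy⟩ := (hg.2 w (w ++ [x])).mp ⟨x, rfl⟩
    rw [hy, List.length_append, List.length_append, ih]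
    rfl

theorem pre (hg : g ∈ AutT X) {v w : List X} (h : v <+: w) : g v <+: g w := by
  induction w using List.reverseRecOn with
  | nil =>
    rw [List.prefix_nil] at h
    rw [h]
  | append_singleton w x ih =>
    rcases List.prefix_concat_iff.mp h with h | h
    · rw [h]
    · obtain ⟨y, hy⟩ := (hg.2 w (w ++ [x])).mp ⟨x, rfl⟩
      rw [hy]
      exact (ih h).trans (List.prefix_append _ _)

theorem pre_iff (hg : g ∈ AutT X) {v w : List X} : g v <+: g w ↔ v <+: w := by
  refine ⟨fun h => ?_, pre hg⟩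
  have := pre ((AutT X).inv_mem hg) h
  rwa [Equiv.Perm.inv_def, Equiv.symm_apply_apply, Equiv.symm_apply_apply] at this

theorem mem_of (h0 : g [] = []) (h1 : ∀ v x, ∃ y, g (v ++ [x]) = g v ++ [y])
    (h2 : ∀ v x, ∃ y, g⁻¹ (v ++ [x]) = g⁻¹ v ++ [y]) : g ∈ AutT X := by
  refine ⟨h0, fun v w => ⟨?_, ?_⟩⟩
  · rintro ⟨x, rfl⟩
    exact h1 v x
  · rintro ⟨x, hx⟩
    obtain ⟨y, hy⟩ := h2 (g v) x
    rw [← hx] at hy
    rw [Equiv.Perm.inv_def, Equiv.symm_apply_apply, Equiv.symm_apply_apply] at hy
    exact ⟨y, hy⟩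

theorem pre_eq {v w u : List X} (h1 : v <+: u) (h2 : w <+: u) (h : v.length = w.length) : v = w :=
  (List.prefix_of_prefix_length_le h1 h2 h.le).eq_of_length h

theorem rist_fix {v : List X} {U : Subgroup (Equiv.Perm (List X))} (hU : U ≤ AutT X)
    (hg : g ∈ rist U v) : g v = v := by
  by_contra hne
  have h1 : ¬ v <+: g v := by
    intro h
    exact hne (h.eq_of_length (len (hU hg.1) v).symm).symm
  have h2 := hg.2 _ h1
  exact hne (g.injective h2)

theorem rist_disj {v w : List X} {U : Subgroup (Equiv.Perm (List X))} {r t : Equiv.Perm (List X)}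
    (hvw : v ≠ w) (hl : v.length = w.length) (hr : r ∈ rist U v) (ht : t ∈ rist U w) :
    r * t = t * r := by
  apply Equiv.Perm.Disjoint.commute
  intro u
  by_cases h : v <+: u
  · right
    apply ht.2
    intro h'
    exact hvw (pre_eq h h' hl)
  · left
    exact hr.2 u h

theorem rist_conj {v : List X} {n r : Equiv.Perm (List X)} (hn : n ∈ AutT X)
    (hr : r ∈ rist (AutT X) v) : n * r * n⁻¹ ∈ rist (AutT X) (n v) := by
  refine ⟨(AutT X).mul_mem ((AutT X).mul_mem hn hr.1) ((AutT X).inv_mem hn), fun w hw => ?_⟩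
  rw [Equiv.Perm.mul_apply, Equiv.Perm.mul_apply, hr.2, Equiv.Perm.inv_def, Equiv.apply_symm_apply]
  intro h
  apply hw
  have := pre hn h
  rwa [Equiv.Perm.inv_def, Equiv.apply_symm_apply] at this

/-- The commutator trick. -/
theorem comm_mem {P N : Subgroup (Equiv.Perm (List X))} (hP : P ≤ AutT X)
    (hN : ∀ n ∈ N, ∀ p ∈ P, p * n * p⁻¹ ∈ N) (hNP : N ≤ P) {n : Equiv.Perm (List X)} (hn : n ∈ N)
    {x : List X} (hx : n x ≠ x) (hxP : rist (AutT X) x ≤ P) {r t : Equiv.Perm (List X)}
    (hr : r ∈ rist (AutT X) x) (ht : t ∈ rist (AutT X) x) : ⁅r, t⁆ ∈ N := by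
  have hnA := hP (hNP hn)
  set r' := n * r⁻¹ * n⁻¹ with hr'
  have h1 : r' ∈ rist (AutT X) (n x) := rist_conj hnA (inv_mem hr)
  have hcr : r' * r = r * r' := rist_disj hx (len hnA x) h1 hr
  have hct : r' * t = t * r' := rist_disj hx (len hnA x) h1 ht
  -- `[n, r⁻¹] = r' * r`
  have h2 : r' * r ∈ N := by
    have h3 := N.mul_mem hn (hN _ (N.inv_mem hn) _ (hxP (inv_mem hr)))
    have h4 : n * (r⁻¹ * n⁻¹ * r⁻¹⁻¹) = r' * r := by rw [hr']; group
    rwa [h4] at h3
  have h3 := N.mul_mem h2 (hN _ (N.inv_mem h2) _ (hxP ht))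
  have h4 : r' * r * (t * (r' * r)⁻¹ * t⁻¹) = ⁅r, t⁆ := by
    have h5 : t * (r' * r)⁻¹ * t⁻¹ = (t * r' * r * t⁻¹)⁻¹ := by group
    rw [h5, ← hct, hcr, commutatorElement_def]
    have h6 : (r' * t * r * t⁻¹)⁻¹ = t * r⁻¹ * t⁻¹ * r'⁻¹ := by group
    rw [h6]
    have h7 : r * r' * (t * r⁻¹ * t⁻¹ * r'⁻¹) = r * (r' * t) * r⁻¹ * t⁻¹ * r'⁻¹ := by group
    rw [h7, hct]
    have hc1 : r' * r⁻¹ = r⁻¹ * r' := (Commute.inv_right (show Commute r' r from hcr)).eq
    have hc2 : r' * t⁻¹ = t⁻¹ * r' := (Commute.inv_right (show Commute r' t from hct)).eq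
    have h8 : r * (t * r') * r⁻¹ * t⁻¹ * r'⁻¹ = r * t * (r' * r⁻¹) * t⁻¹ * r'⁻¹ := by group
    rw [h8, hc1]
    have h9 : r * t * (r⁻¹ * r') * t⁻¹ * r'⁻¹ = r * t * r⁻¹ * (r' * t⁻¹) * r'⁻¹ := by group
    rw [h9, hc2]
    group
  rwa [h4] at h3

end Gen

section Bin

/-- Letterwise addition of a word. -/
def trf : List Bool → List Bool → List Bool
  | [], w => w
  | _ :: _, [] => []
  | b :: a, c :: w => xor b c :: trf a w

theorem trf_trf : ∀ (a w : List Bool), trf a (trf a w) = w
  | [], _ => rfl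
  | _ :: _, [] => rfl
  | b :: a, c :: w => by
    rw [trf, trf, trf_trf a w]
    simp

theorem trf_nil (a : List Bool) : trf a [] = [] := by
  cases a <;> rfl

theorem trf_app : ∀ (a v : List Bool) (x : Bool), ∃ y, trf a (v ++ [x]) = trf a v ++ [y]
  | [], v, x => ⟨x, rfl⟩
  | b :: a, [], x => ⟨xor b x, by simp [trf, trf_nil]⟩
  | b :: a, c :: v, x => by
    obtain ⟨y, hy⟩ := trf_app a v x
    exact ⟨y, by simp [trf, hy]⟩

/-- Letterwise addition of a word, as a permutation. -/
def tr (a : List Bool) : Equiv.Perm (List Bool) := Function.Involutive.toPerm (trf a) (trf_trf a)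

theorem tr_mem (a : List Bool) : tr a ∈ AutT Bool :=
  mem_of (trf_nil a) (trf_app a) (trf_app a)

theorem tr_trans : ∀ v w : List Bool, v.length = w.length → trf (List.zipWith xor v w) v = w
  | [], [], _ => rfl
  | b :: v, c :: w, h => by
    simp only [List.zipWith_cons_cons, trf]
    rw [tr_trans v w (by simpa using h)]
    cases b <;> cases c <;> rfl

/-- The map that acts by `h` below the letter `b`. -/
def g1f (b : Bool) (h : List Bool → List Bool) : List Bool → List Bool
  | [] => []
  | c :: w => if c = b then c :: h w else c :: w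

/-- The permutation that acts by `h` below the letter `b`. -/
def graft1 (b : Bool) (h : Equiv.Perm (List Bool)) : Equiv.Perm (List Bool) where
  toFun := g1f b h
  invFun := g1f b h.symm
  left_inv := by
    rintro (_ | ⟨c, w⟩)
    · rfl
    · by_cases hc : c = b <;> simp [g1f, hc]
  right_inv := by
    rintro (_ | ⟨c, w⟩)
    · rfl
    · by_cases hc : c = b <;> simp [g1f, hc]

theorem graft1_nil (b : Bool) (h : Equiv.Perm (List Bool)) : graft1 b h [] = [] := rfl

theorem graft1_cons (b c : Bool) (h : Equiv.Perm (List Bool)) (w : List Bool) :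
    graft1 b h (c :: w) = if c = b then c :: h w else c :: w := rfl

theorem graft1_inv (b : Bool) (h : Equiv.Perm (List Bool)) : (graft1 b h)⁻¹ = graft1 b h⁻¹ := rfl

theorem graft1_mul (b : Bool) (h h' : Equiv.Perm (List Bool)) :
    graft1 b (h * h') = graft1 b h * graft1 b h' := by
  apply Equiv.ext
  rintro (_ | ⟨c, w⟩)
  · rfl
  · rw [Equiv.Perm.mul_apply]
    by_cases hc : c = b <;> simp [graft1_cons, hc]

theorem graft1_app (b : Bool) (h : Equiv.Perm (List Bool)) (h0 : h [] = [])
    (h1 : ∀ v x, ∃ y, h (v ++ [x]) = h v ++ [y]) (v : List Bool) (x : Bool) :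
    ∃ y, graft1 b h (v ++ [x]) = graft1 b h v ++ [y] := by
  rcases v with _ | ⟨c, w⟩
  · refine ⟨x, ?_⟩
    rw [List.nil_append, graft1_cons, graft1_nil, h0]
    simp
  · obtain ⟨y, hy⟩ := h1 w x
    by_cases hc : c = b
    · exact ⟨y, by rw [List.cons_append, graft1_cons, graft1_cons, if_pos hc, if_pos hc, hy,
        List.cons_append]⟩
    · exact ⟨x, by rw [List.cons_append, graft1_cons, graft1_cons, if_neg hc, if_neg hc,
        List.cons_append]⟩

theorem graft1_mem (b : Bool) {h : Equiv.Perm (List Bool)} (hh : h ∈ AutT Bool) :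
    graft1 b h ∈ AutT Bool := by
  have hi := (AutT Bool).inv_mem hh
  apply mem_of rfl
  · exact graft1_app b h hh.1 fun v x => (hh.2 v (v ++ [x])).mp ⟨x, rfl⟩
  · rw [graft1_inv]
    exact graft1_app b h⁻¹ hi.1 fun v x => (hi.2 v (v ++ [x])).mp ⟨x, rfl⟩

/-- The permutation that acts by `h` below the vertex `v`. -/
def graft : List Bool → Equiv.Perm (List Bool) → Equiv.Perm (List Bool)
  | [], h => h
  | b :: v, h => graft1 b (graft v h)

theorem graft_mul (v : List Bool) (h h' : Equiv.Perm (List Bool)) :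
    graft v (h * h') = graft v h * graft v h' := by
  induction v with
  | nil => rfl
  | cons b v ih => rw [graft, ih, graft1_mul]; rfl

/-- `graft v` as a homomorphism. -/
def graftHom (v : List Bool) : Equiv.Perm (List Bool) →* Equiv.Perm (List Bool) :=
  MonoidHom.mk' (graft v) (graft_mul v)

theorem graft_mem (v : List Bool) {h : Equiv.Perm (List Bool)} (hh : h ∈ AutT Bool) :
    graft v h ∈ rist (AutT Bool) v := by
  induction v with
  | nil => exact ⟨hh, fun w hw => absurd List.nil_prefix hw⟩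
  | cons b v ih =>
    refine ⟨graft1_mem b ih.1, fun w hw => ?_⟩
    rcases w with _ | ⟨c, w⟩
    · rfl
    · rw [graft, graft1_cons]
      by_cases hc : c = b
      · rw [if_pos hc, ih.2]
        intro h
        apply hw
        rw [hc, List.cons_prefix_cons]
        exact ⟨rfl, h⟩
      · rw [if_neg hc]

theorem graft_app (v : List Bool) (h : Equiv.Perm (List Bool)) (w : List Bool) :
    graft v h (v ++ w) = v ++ h w := by
  induction v with
  | nil => rfl
  | cons b v ih => rw [graft, List.cons_append, graft1_cons, if_pos rfl, ih, List.cons_append]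

/-- The swap at the root. -/
def sw : Equiv.Perm (List Bool) := tr [true]

/-- The first test element. -/
def al : Equiv.Perm (List Bool) := ⁅sw, graft [false] sw⁆

/-- The second test element. -/
def be : Equiv.Perm (List Bool) := ⁅sw, graft [false, false] sw⁆

theorem al_be : al * be ≠ be * al := by
  intro h
  have h1 := congrArg (fun g : Equiv.Perm (List Bool) => g [true, false, false]) h
  revert h1
  decide

theorem graft_inj (v : List Bool) {h h' : Equiv.Perm (List Bool)} (e : graft v h = graft v h') : h = h' := by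
  apply Equiv.ext
  intro w
  have := congrArg (fun g : Equiv.Perm (List Bool) => g (v ++ w)) e
  simp only [graft_app] at this
  exact List.append_cancel_left this

theorem sw_mem : sw ∈ AutT Bool := tr_mem _

/-- the test elements below `x` lie in `N` if `N` contains an element that moves `x` -/
theorem test_mem {P N : Subgroup (Equiv.Perm (List Bool))} (hP : P ≤ AutT Bool)
    (hN : ∀ n ∈ N, ∀ p ∈ P, p * n * p⁻¹ ∈ N) (hNP : N ≤ P) {n : Equiv.Perm (List Bool)} (hn : n ∈ N)
    {x : List Bool} (hx : n x ≠ x) (hxP : rist (AutT Bool) x ≤ P) :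
    graft x al ∈ N ∧ graft x be ∈ N := by
  have e : ∀ y, graft x ⁅sw, y⁆ = ⁅graft x sw, graft x y⁆ := fun y => map_commutatorElement (graftHom x) sw y
  have h2 : ∀ y, graft y sw ∈ AutT Bool := fun y => (graft_mem y sw_mem).1
  constructor
  · rw [al, e]
    exact comm_mem hP hN hNP hn hx hxP (graft_mem x sw_mem) (graft_mem x (h2 _))
  · rw [be, e]
    exact comm_mem hP hN hNP hn hx hxP (graft_mem x sw_mem) (graft_mem x (h2 _))

end Bin

end Pool.Agent.V1128.Br
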