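import Mathlib
import Pool.Agent.V1128.Br.Tree

set_option autoImplicit false
set_option linter.unusedSimpArgs false

/-!
Sections; the automorphism group of the binary tree is a branch group commensurable with its cube.
-/

namespace Pool.Agent.V1128.Br

/-- The map that acts by `h` below `false` and by `h'` below `true`. -/
def prf (h h' : List Bool → List Bool) : List Bool → List Bool
  | [] => []
  | false :: w => false :: h w
  | true :: w => true :: h' w

/-- The permutation that acts by `h` below `false` and by `h'` below `true`. -/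
def pr (h h' : Equiv.Perm (List Bool)) : Equiv.Perm (List Bool) where
  toFun := prf h h'
  invFun := prf h.symm h'.symm
  left_inv := by
    rintro (_ | ⟨c, w⟩)
    · rfl
    · cases c <;> simp [prf]
  right_inv := by
    rintro (_ | ⟨c, w⟩)
    · rfl
    · cases c <;> simp [prf]

theorem pr_nil (h h' : Equiv.Perm (List Bool)) : pr h h' [] = [] := rfl
theorem pr_false (h h' : Equiv.Perm (List Bool)) (w : List Bool) : pr h h' (false :: w) = false :: h w := rfl
theorem pr_true (h h' : Equiv.Perm (List Bool)) (w : List Bool) : pr h h' (true :: w) = true :: h' w := rfl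
theorem pr_inv (h h' : Equiv.Perm (List Bool)) : (pr h h')⁻¹ = pr h⁻¹ h'⁻¹ := rfl

theorem pr_mul (h h' k k' : Equiv.Perm (List Bool)) : pr (h * k) (h' * k') = pr h h' * pr k k' := by
  apply Equiv.ext
  rintro (_ | ⟨c, w⟩)
  · rfl
  · cases c <;> rfl

theorem pr_app (h h' : Equiv.Perm (List Bool)) (h0 : h [] = []) (h0' : h' [] = [])
    (h1 : ∀ v x, ∃ y, h (v ++ [x]) = h v ++ [y]) (h1' : ∀ v x, ∃ y, h' (v ++ [x]) = h' v ++ [y])
    (v : List Bool) (x : Bool) : ∃ y, pr h h' (v ++ [x]) = pr h h' v ++ [y] := by
  rcases v with _ | ⟨c, w⟩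
  · refine ⟨x, ?_⟩
    cases x
    · rw [List.nil_append, pr_false, pr_nil, h0]; rfl
    · rw [List.nil_append, pr_true, pr_nil, h0']; rfl
  · cases c
    · obtain ⟨y, hy⟩ := h1 w x
      exact ⟨y, by rw [List.cons_append, pr_false, pr_false, hy, List.cons_append]⟩
    · obtain ⟨y, hy⟩ := h1' w x
      exact ⟨y, by rw [List.cons_append, pr_true, pr_true, hy, List.cons_append]⟩

theorem pr_mem {h h' : Equiv.Perm (List Bool)} (hh : h ∈ AutT Bool) (hh' : h' ∈ AutT Bool) :
    pr h h' ∈ AutT Bool := by
  have hi := (AutT Bool).inv_mem hh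
  have hi' := (AutT Bool).inv_mem hh'
  apply mem_of rfl
  · exact pr_app h h' hh.1 hh'.1 (fun v x => (hh.2 v (v ++ [x])).mp ⟨x, rfl⟩)
      (fun v x => (hh'.2 v (v ++ [x])).mp ⟨x, rfl⟩)
  · rw [pr_inv]
    exact pr_app h⁻¹ h'⁻¹ hi.1 hi'.1 (fun v x => (hi.2 v (v ++ [x])).mp ⟨x, rfl⟩)
      (fun v x => (hi'.2 v (v ++ [x])).mp ⟨x, rfl⟩)

theorem cons_of {g : Equiv.Perm (List Bool)} (hg : g ∈ AutT Bool) {b : Bool} (hb : g [b] = [b])
    (w : List Bool) : g (b :: w) = b :: (g (b :: w)).tail := by
  have h1 : [b] <+: b :: w := ⟨w, rfl⟩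
  have h2 := pre hg h1
  rw [hb] at h2
  obtain ⟨t, ht⟩ := h2
  rw [← ht]
  rfl

theorem inv_fix {g : Equiv.Perm (List Bool)} {v : List Bool} (hb : g v = v) : g⁻¹ v = v := by
  rw [Equiv.Perm.inv_eq_iff_eq, hb]

/-- The section of `g` at the letter `b`. -/
def sec {g : Equiv.Perm (List Bool)} (hg : g ∈ AutT Bool) {b : Bool} (hb : g [b] = [b]) :
    Equiv.Perm (List Bool) where
  toFun w := (g (b :: w)).tail
  invFun w := (g⁻¹ (b :: w)).tail
  left_inv w := by
    change (g⁻¹ (b :: (g (b :: w)).tail)).tail = w
    rw [← cons_of hg hb w, Equiv.Perm.inv_def, Equiv.symm_apply_apply]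
    rfl
  right_inv w := by
    change (g (b :: (g⁻¹ (b :: w)).tail)).tail = w
    rw [← cons_of ((AutT Bool).inv_mem hg) (inv_fix hb) w, Equiv.Perm.inv_def, Equiv.apply_symm_apply]
    rfl

theorem sec_apply {g : Equiv.Perm (List Bool)} (hg : g ∈ AutT Bool) {b : Bool} (hb : g [b] = [b])
    (w : List Bool) : g (b :: w) = b :: sec hg hb w := cons_of hg hb w

theorem sec_mem {g : Equiv.Perm (List Bool)} (hg : g ∈ AutT Bool) {b : Bool} (hb : g [b] = [b]) :
    sec hg hb ∈ AutT Bool := by
  have key : ∀ (g : Equiv.Perm (List Bool)) (hg : g ∈ AutT Bool) (hb : g [b] = [b]) (v : List Bool) (x : Bool),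
      ∃ y, (g (b :: (v ++ [x]))).tail = (g (b :: v)).tail ++ [y] := by
    intro g hg hb v x
    obtain ⟨y, hy⟩ := (hg.2 (b :: v) (b :: v ++ [x])).mp ⟨x, rfl⟩
    refine ⟨y, ?_⟩
    rw [← List.cons_append, hy, cons_of hg hb v]
    rfl
  apply mem_of
  · change (g [b]).tail = []
    rw [hb]
    rfl
  · exact key g hg hb
  · exact key g⁻¹ ((AutT Bool).inv_mem hg) (inv_fix hb)

theorem fix_true {g : Equiv.Perm (List Bool)} (hg : g ∈ AutT Bool) {v : List Bool}
    (hv : g v = v) (hb : g (v ++ [false]) = v ++ [false]) : g (v ++ [true]) = v ++ [true] := by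
  obtain ⟨y, hy⟩ := (hg.2 v (v ++ [true])).mp ⟨true, rfl⟩
  rw [hv] at hy
  cases y
  · rw [← hb] at hy
    have := g.injective hy
    simp at this
  · exact hy

theorem eq_pr {g : Equiv.Perm (List Bool)} (hg : g ∈ AutT Bool) (h0 : g [false] = [false])
    (h1 : g [true] = [true]) : g = pr (sec hg h0) (sec hg h1) := by
  apply Equiv.ext
  rintro (_ | ⟨c, w⟩)
  · exact hg.1
  · cases c
    · rw [pr_false, sec_apply hg h0]
    · rw [pr_true, sec_apply hg h1]

theorem rist_le_ristL {m : ℕ} {x : List Bool} (hx : m ≤ x.length) :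
    rist (AutT Bool) x ≤ ristL (AutT Bool) m := by
  have h1 : rist (AutT Bool) x ≤ rist (AutT Bool) (x.take m) := by
    rintro g ⟨hg, hg'⟩
    exact ⟨hg, fun w hw => hg' w fun h => hw ((List.take_prefix m x).trans h)⟩
  refine h1.trans ?_
  exact le_iSup₂_of_le (x.take m) (by simp [hx]) le_rfl

theorem pr_one_mem {m : ℕ} {h : Equiv.Perm (List Bool)} (hh : h ∈ ristL (AutT Bool) m) :
    pr h 1 ∈ ristL (AutT Bool) (m + 1) ∧ pr 1 h ∈ ristL (AutT Bool) (m + 1) := by
  let f : Equiv.Perm (List Bool) →* Equiv.Perm (List Bool) := MonoidHom.mk' (fun h => pr h 1)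
    (fun a b => by rw [← pr_mul, one_mul])
  let f' : Equiv.Perm (List Bool) →* Equiv.Perm (List Bool) := MonoidHom.mk' (fun h => pr 1 h)
    (fun a b => by rw [← pr_mul, one_mul])
  have h1 : ristL (AutT Bool) m ≤ (ristL (AutT Bool) (m + 1)).comap f := by
    refine iSup₂_le fun v hv => ?_
    rintro g ⟨hg, hg'⟩
    refine rist_le_ristL (x := false :: v) (by simp [hv]) ⟨pr_mem hg (one_mem _), fun w hw => ?_⟩
    rcases w with _ | ⟨c, w⟩
    · rfl
    · cases c
      · change pr g 1 (false :: w) = _
        rw [pr_false, hg']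
        intro h
        exact hw (by rw [List.cons_prefix_cons]; exact ⟨rfl, h⟩)
      · rfl
  have h2 : ristL (AutT Bool) m ≤ (ristL (AutT Bool) (m + 1)).comap f' := by
    refine iSup₂_le fun v hv => ?_
    rintro g ⟨hg, hg'⟩
    refine rist_le_ristL (x := true :: v) (by simp [hv]) ⟨pr_mem (one_mem _) hg, fun w hw => ?_⟩
    rcases w with _ | ⟨c, w⟩
    · rfl
    · cases c
      · rfl
      · change pr 1 g (true :: w) = _
        rw [pr_true, hg']
        intro h
        exact hw (by rw [List.cons_prefix_cons]; exact ⟨rfl, h⟩)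
  exact ⟨h1 hh, h2 hh⟩

theorem fix_short {g : Equiv.Perm (List Bool)} (hg : g ∈ AutT Bool) {m : ℕ}
    (hm : ∀ v : List Bool, v.length = m → g v = v) {v : List Bool} (hv : v.length ≤ m) : g v = v := by
  set v' := v ++ List.replicate (m - v.length) false with hv'
  have h1 : v'.length = m := by simp [hv', hv]
  have h2 : v <+: v' := List.prefix_append _ _
  have h3 := pre hg h2
  rw [hm v' h1] at h3
  exact pre_eq h3 h2 (len hg v)

/-- The stabiliser of a level lies in the rigid stabiliser. -/
theorem stab_le (m : ℕ) : ∀ g ∈ AutT Bool, (∀ v : List Bool, v.length = m → g v = v) →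
    g ∈ ristL (AutT Bool) m := by
  induction m with
  | zero =>
    intro g hg _
    exact rist_le_ristL (x := []) le_rfl ⟨hg, fun w hw => absurd List.nil_prefix hw⟩
  | succ m ih =>
    intro g hg hm
    have h0 : g [false] = [false] := fix_short hg hm (by simp)
    have h1 : g [true] = [true] := fix_short hg hm (by simp)
    rw [eq_pr hg h0 h1]
    have e : pr (sec hg h0) (sec hg h1) = pr (sec hg h0) 1 * pr 1 (sec hg h1) := by
      rw [← pr_mul, one_mul, mul_one]
    rw [e]
    refine mul_mem (pr_one_mem (ih _ (sec_mem hg h0) fun v hv => ?_)).1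
      (pr_one_mem (ih _ (sec_mem hg h1) fun v hv => ?_)).2
    · have := hm (false :: v) (by simp [hv])
      rw [sec_apply hg h0] at this
      exact (List.cons.inj this).2
    · have := hm (true :: v) (by simp [hv])
      rw [sec_apply hg h1] at this
      exact (List.cons.inj this).2

/-- the vertices of a level -/
abbrev Lev (m : ℕ) : Type := {v : List Bool // v.length = m}

instance (m : ℕ) : Finite (Lev m) := (List.finite_length_eq Bool m).to_subtype

/-- The action on a level. -/
def act (m : ℕ) : AutT Bool →* Equiv.Perm (Lev m) where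
  toFun g :=
    { toFun := fun v => ⟨g.1 v.1, by rw [len g.2, v.2]⟩
      invFun := fun v => ⟨g.1⁻¹ v.1, by rw [len ((AutT Bool).inv_mem g.2), v.2]⟩
      left_inv := fun v => Subtype.ext (g.1.symm_apply_apply v.1)
      right_inv := fun v => Subtype.ext (g.1.apply_symm_apply v.1) }
  map_one' := rfl
  map_mul' _ _ := rfl

theorem ristL_index (m : ℕ) : (ristL (AutT Bool) m).relIndex (AutT Bool) ≠ 0 := by
  have h1 : (act m).ker ≤ (ristL (AutT Bool) m).subgroupOf (AutT Bool) := by
    intro g hg
    rw [MonoidHom.mem_ker] at hg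
    rw [Subgroup.mem_subgroupOf]
    apply stab_le m _ g.2
    intro v hv
    have := congrArg (fun f : Equiv.Perm (Lev m) => (f ⟨v, hv⟩).1) hg
    exact this
  have h2 : (act m).ker.FiniteIndex := inferInstance
  have h3 : ((ristL (AutT Bool) m).subgroupOf (AutT Bool)).FiniteIndex := Subgroup.finiteIndex_of_le h1
  exact h3.index_ne_zero

theorem isBranch : IsBranch (AutT Bool) := by
  refine ⟨le_rfl, ?_, ?_, ristL_index⟩
  · rw [Subgroup.subgroupOf_self]
    exact isClosed_univ
  · intro v w h
    exact ⟨tr (List.zipWith xor v w), tr_mem _, tr_trans v w h⟩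

/-- The embedding of the cube. -/
def Phi : (Fin 3 → AutT Bool) →* AutT Bool where
  toFun f := ⟨pr (f 0).1 (pr (f 1).1 (f 2).1), pr_mem (f 0).2 (pr_mem (f 1).2 (f 2).2)⟩
  map_one' := by
    apply Subtype.ext
    apply Equiv.ext
    rintro (_ | ⟨_ | _, _ | ⟨_ | _, w⟩⟩) <;> rfl
  map_mul' f g := by
    apply Subtype.ext
    change pr (f 0 * g 0 : AutT Bool).1 (pr (f 1 * g 1 : AutT Bool).1 (f 2 * g 2 : AutT Bool).1) =
      pr (f 0).1 (pr (f 1).1 (f 2).1) * pr (g 0).1 (pr (g 1).1 (g 2).1)
    rw [Subgroup.coe_mul, Subgroup.coe_mul, Subgroup.coe_mul, pr_mul, pr_mul]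

/-- The three vertices. -/
def vx : Fin 3 → List Bool
  | 0 => [false]
  | 1 => [true, false]
  | 2 => [true, true]

theorem Phi_vx (f : Fin 3 → AutT Bool) (i : Fin 3) (w : List Bool) :
    (Phi f).1 (vx i ++ w) = vx i ++ (f i).1 w := by
  fin_cases i <;> rfl

theorem Phi_inj : Function.Injective Phi := by
  intro f g h
  funext i
  apply Subtype.ext
  apply Equiv.ext
  intro w
  have h1 := congrArg (fun g : AutT Bool => g.1 (vx i ++ w)) h
  simp only [Phi_vx] at h1
  exact List.append_cancel_left h1

theorem Phi_range {g : AutT Bool} (h0 : g.1 [false] = [false]) (h1 : g.1 [true, false] = [true, false]) :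
    g ∈ Phi.range := by
  have e0 : g.1 [true] = [true] := fix_true g.2 g.2.1 h0
  set k := sec g.2 e0 with hk
  have hkm : k ∈ AutT Bool := sec_mem g.2 e0
  have k0 : k [false] = [false] := by
    have := sec_apply g.2 e0 [false]
    rw [h1] at this
    exact (List.cons.inj this).2.symm
  have k1 : k [true] = [true] := fix_true hkm hkm.1 k0
  refine ⟨fun i => match i with
    | 0 => ⟨sec g.2 h0, sec_mem g.2 h0⟩
    | 1 => ⟨sec hkm k0, sec_mem hkm k0⟩
    | 2 => ⟨sec hkm k1, sec_mem hkm k1⟩, ?_⟩
  apply Subtype.ext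
  change pr (sec g.2 h0) (pr (sec hkm k0) (sec hkm k1)) = g.1
  rw [← eq_pr hkm k0 k1, hk, ← eq_pr g.2 h0 e0]

theorem comm3 : Comm (AutT Bool) (Fin 3 → AutT Bool) := by
  have hopen : ∀ v w : List Bool, IsOpen {g : AutT Bool | g.1 v = w} := fun v w =>
    (open_eq v w).preimage continuous_subtype_val
  refine ⟨Phi.range, ⊤, ?_, isOpen_univ, ⟨?_⟩⟩
  · have h1 : IsOpen {g : AutT Bool | g.1 [false] = [false] ∧ g.1 [true, false] = [true, false]} :=
      (hopen _ _).inter (hopen _ _)
    refine Subgroup.isOpen_of_mem_nhds _ (g := 1) ?_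
    exact Filter.mem_of_superset (h1.mem_nhds ⟨rfl, rfl⟩) fun g hg => Phi_range hg.1 hg.2
  · let e1 : (Fin 3 → AutT Bool) ≃* Phi.range := MonoidHom.ofInjective Phi_inj
    let e2 : (⊤ : Subgroup (Fin 3 → AutT Bool)) ≃* (Fin 3 → AutT Bool) := Subgroup.topEquiv
    have hc1 : Continuous e1 := by
      refine Continuous.subtype_mk (Continuous.subtype_mk ?_ _) _
      rw [cont_iff]
      have hf : ∀ (i : Fin 3) (v w : List Bool), IsOpen {f : Fin 3 → AutT Bool | (f i).1 v = w} :=
        fun i v w => by
          have hci : Continuous fun f : Fin 3 → AutT Bool => f i := continuous_apply i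
          exact (hopen v w).preimage hci
      have hcst : ∀ c : Prop, IsOpen {f : Fin 3 → AutT Bool | c} := fun c => isOpen_const
      rintro (_ | ⟨_ | _, v⟩) w
      · exact hcst ([] = w)
      · rcases w with _ | ⟨_ | _, w⟩
        · convert hcst False using 2
          simp [pr_false]
        · convert hf 0 v w using 2
          simp [pr_false]
        · convert hcst False using 2
          simp [pr_false]
      · rcases v with _ | ⟨_ | _, v⟩
        · exact hcst ([true] = w)
        · rcases w with _ | ⟨_ | _, _ | ⟨_ | _, w⟩⟩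
          · convert hcst False using 2
            simp [pr_false, pr_true]
          · convert hcst False using 2
            simp [pr_false, pr_true]
          · convert hcst False using 2
            simp [pr_false, pr_true]
          · convert hcst False using 2
            simp [pr_false, pr_true]
          · convert hcst False using 2
            simp [pr_false, pr_true]
          · convert hf 1 v w using 2
            simp [pr_false, pr_true]
          · convert hcst False using 2
            simp [pr_false, pr_true]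
        · rcases w with _ | ⟨_ | _, _ | ⟨_ | _, w⟩⟩
          · convert hcst False using 2
            simp [pr_false, pr_true]
          · convert hcst False using 2
            simp [pr_false, pr_true]
          · convert hcst False using 2
            simp [pr_false, pr_true]
          · convert hcst False using 2
            simp [pr_false, pr_true]
          · convert hcst False using 2
            simp [pr_false, pr_true]
          · convert hcst False using 2
            simp [pr_false, pr_true]
          · convert hf 2 v w using 2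
            simp [pr_false, pr_true]
    have hc2 : Continuous e1.symm := by
      refine continuous_pi fun i => ?_
      refine continuous_induced_rng.mpr ?_
      rw [cont_iff]
      intro v w
      have h1 : {g : Phi.range | (e1.symm g i).1 v = w} = {g | g.1.1 (vx i ++ v) = vx i ++ w} := by
        ext g
        obtain ⟨f, rfl⟩ := e1.surjective g
        have h2 : (e1 f).1 = Phi f := rfl
        simp only [Set.mem_ofPred_eq, e1.symm_apply_apply, h2, Phi_vx, List.append_cancel_left_eq]
      change IsOpen {g : Phi.range | (e1.symm g i).1 v = w}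
      rw [h1]
      exact (hopen _ _).preimage continuous_subtype_val
    exact { (e1.symm.trans e2.symm) with
      continuous_toFun := (Continuous.subtype_mk hc2 _)
      continuous_invFun := hc1.comp continuous_subtype_val }

end Pool.Agent.V1128.Br
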